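import Pool.Agent.ATP.Stmts

/-!
# Squad ATP, rows PXB and PIN
-/

open scoped BigOperators

noncomputable section

namespace Pool.Agent.PP.TP.H49

open Pool.Agent.Helper51_AWC Pool.Agent.Helper79_WRA Pool.Agent.PP Pool.Agent.PP.KF
open Pool.Agent.PP.K9 Pool.Agent.PP.K9.H97 Pool.Agent.PP.H75 Pool.Agent.PP.T3 Pool.Agent.PP.T2
open Pool.Agent.PP.TB Pool.Agent.PP.TP

attribute [local instance] Ideal.Quotient.field

variable {G : Type} [Group G] [Finite G] {F : Type} [Field F] {ℓ : ℕ}

theorem cent_anti {Q R : Subgroup G} (h : Q ≤ R) :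
    Subgroup.centralizer (R : Set G) ≤ Subgroup.centralizer (Q : Set G) :=
  Subgroup.centralizer_le (by exact_mod_cast h)

theorem ix_ap {K : Subgroup G} {E : G → F} (hE : Ix K E) {n : G} (hn : n ∈ K) (t : G) :
    E (n * t * n⁻¹) = E t := (cj_eq_iff _ _).1 (hE.inv hn) t

theorem br_mem {P : Subgroup G} {a : G → F} {t : G}
    (h : t ∈ Subgroup.centralizer (P : Set G)) : br P a t = a t := by
  classical
  unfold br
  rw [if_pos h]

theorem br_nmem {P : Subgroup G} {a : G → F} {t : G}
    (h : t ∉ Subgroup.centralizer (P : Set G)) : br P a t = 0 := by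
  classical
  unfold br
  rw [if_neg h]

theorem br_br' {Q P : Subgroup G} (h : Q ≤ P) (a : G → F) : br P (br Q a) = br P a := by
  funext t
  by_cases ht : t ∈ Subgroup.centralizer (P : Set G)
  · rw [br_mem ht, br_mem ht, br_mem (cent_anti h ht)]
  · rw [br_nmem ht, br_nmem ht]

theorem ix_br (hF : GoodF ℓ F) {K R : Subgroup G} {E : G → F} (hE : Ix K E) (hR : IsPGroup ℓ R)
    (hRK : R ≤ K) (hCK : Subgroup.centralizer (R : Set G) ≤ K) :
    Ix (Subgroup.centralizer (R : Set G)) (br R E) := by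
  have hs : ∀ x, x ∉ Subgroup.centralizer (R : Set G) → br R E x = 0 := fun x hx => br_nmem hx
  have hi : H66.Inv R E := fun p hp t => ix_ap hE (hRK hp) t
  refine ⟨hs, ?_, ?_⟩
  · intro x y
    change br R E ((y : G) * x * (y : G)⁻¹) = br R E x
    rw [br_mem x.2, br_mem (mul_mem (mul_mem y.2 x.2) (inv_mem y.2))]
    exact ix_ap hE (hCK y.2) x
  · rw [← mulF_res _ _ hs, ← H66.br_mulF hF hR hi hi, hE.mul]

/-- centralisers of a subgroup are permuted by the normaliser -/
theorem cent_conj {R : Subgroup G} {x t : G} (hx : x ∈ Subgroup.normalizer (R : Set G)) :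
    x * t * x⁻¹ ∈ Subgroup.centralizer (R : Set G) ↔ t ∈ Subgroup.centralizer (R : Set G) := by
  have key : ∀ {x t : G}, x ∈ Subgroup.normalizer (R : Set G) →
      t ∈ Subgroup.centralizer (R : Set G) → x * t * x⁻¹ ∈ Subgroup.centralizer (R : Set G) := by
    intro x t hx ht
    rw [Subgroup.mem_centralizer_iff] at ht ⊢
    intro h hh
    have h1 : x⁻¹ * h * x ∈ (R : Set G) := by
      have := (Subgroup.mem_normalizer_iff.1 hx (x⁻¹ * h * x)).2
      apply this
      have e : x * (x⁻¹ * h * x) * x⁻¹ = h := by group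
      rw [e]
      exact hh
    have h2 := ht _ h1
    calc h * (x * t * x⁻¹) = x * ((x⁻¹ * h * x) * t) * x⁻¹ := by group
      _ = x * (t * (x⁻¹ * h * x)) * x⁻¹ := by rw [h2]
      _ = x * t * x⁻¹ * h := by group
  constructor
  · intro h
    have := key (inv_mem hx) h
    have e : x⁻¹ * (x * t * x⁻¹) * x⁻¹⁻¹ = t := by group
    rwa [e] at this
  · exact key hx

theorem inv_br {K P R : Subgroup G} {E : G → F} (hE : Ix K E) (hPK : P ≤ K)
    (hN : P ≤ Subgroup.normalizer (R : Set G)) : H66.Inv P (br R E) := by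
  intro p hp t
  by_cases ht : t ∈ Subgroup.centralizer (R : Set G)
  · rw [br_mem ht, br_mem ((cent_conj (hN hp)).2 ht)]
    exact ix_ap hE (hPK hp) t
  · rw [br_nmem ht, br_nmem fun h => ht ((cent_conj (hN hp)).1 h)]

theorem pxb_step (hF : GoodF ℓ F) {K R P : Subgroup G} {E a c : G → F} (hE : Ix K E)
    (hR : Pq ℓ R a) (hP : Pq ℓ P c) (hn : Nl R a P c) (hPK : P ≤ K)
    (hCK : Subgroup.centralizer (R : Set G) ≤ K) :
    mulF (br R E) a = a ↔ mulF (br P E) c = c := by
  have hIx := ix_br hF hE hR.pg (hn.le.trans hPK) hCK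
  have h1 : mulF (br P (br R E)) (br P a) = br P (mulF (br R E) a) :=
    (H66.br_mulF hF hP.pg (inv_br hE hPK hn.nor)
      (fun p hp t => (cj_eq_iff _ _).1 (hn.inv p hp) t)).symm
  rw [br_br' hn.le] at h1
  constructor
  · intro h
    rw [h] at h1
    calc mulF (br P E) c = mulF (br P E) (mulF (br P a) c) := by rw [hn.und]
      _ = mulF (mulF (br P E) (br P a)) c := (Pool.Agent.PP.mulF_assoc _ _ _).symm
      _ = mulF (br P a) c := by rw [h1]
      _ = c := hn.und
  · intro h
    rcases hR.blk.dich' hIx with h2 | h2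
    · rw [hIx.comm hR.blk.ix, h2]
    · exfalso
      rw [hIx.comm hR.blk.ix, h2] at h1
      have h3 : br P (0 : G → F) = 0 := by
        funext t
        by_cases ht : t ∈ Subgroup.centralizer (P : Set G)
        · rw [br_mem ht]
        · rw [br_nmem ht]; rfl
      rw [h3] at h1
      apply hP.blk.ne
      calc c = mulF (br P E) c := h.symm
        _ = mulF (br P E) (mulF (br P a) c) := by rw [hn.und]
        _ = mulF (mulF (br P E) (br P a)) c := (Pool.Agent.PP.mulF_assoc _ _ _).symm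
        _ = 0 := by rw [h1, mulF_zero_left]

theorem pxb : PxbStmt := by
  intro ℓ F _ hF G _ _ K E hE P c hP hPK Q b hQ hCK hle
  induction hle with
  | refl => exact Iff.rfl
  | step R a P c hle hR hP' hn ih =>
    exact (ih hR (hn.le.trans hPK)).trans
      (pxb_step hF hE hR hP' hn hPK ((cent_anti hle.sub).trans hCK))

theorem pin (hPex : PexStmt) (hPun : PunStmt) : PinStmt := by
  intro ℓ F _ hF G _ _ P c hP Q b hQ hle R hQR hRP
  obtain ⟨a, ha, hale, -⟩ := hPex ℓ F hF G P c hP R hRP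
  obtain ⟨b', hb', hble, -⟩ := hPex ℓ F hF G R a ha Q hQR
  have h1 := (hPun ℓ F hF G P c hP Q b hQ hle).1 b' hb' (hble.trans hale)
  subst h1
  exact ⟨a, ha, hble, hale⟩

end Pool.Agent.PP.TP.H49
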